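import Pool.Agent.L7h47.RS.WpcA

/-!
# Project RS: the (1,1)-part is weakly pluriclosed (helper47)
-/

set_option autoImplicit false

open Set Filter Topology MeasureTheory
open scoped ContDiff ComplexConjugate ENNReal

noncomputable section

namespace Pool.Agent.L7h47.RS

open Pool.Agent.L7h17.RS

variable {n : ℕ}

/-- second derivatives of a product -/
theorem second_prod {χ : EC n → ℝ} {φ : EC n → ℂ} (hχ : ContDiff ℝ ∞ χ) (hφ : ContDiff ℝ ∞ φ)
    (z u v : EC n) :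
    fderiv ℝ (fun y => fderiv ℝ (fun x => χ x • φ x) y u) z v =
      χ z • fderiv ℝ (fun y => fderiv ℝ φ y u) z v + fderiv ℝ χ z v • fderiv ℝ φ z u +
      (fderiv ℝ χ z u • fderiv ℝ φ z v + fderiv ℝ (fderiv ℝ χ) z v u • φ z) := by
  have dχ : Differentiable ℝ χ := hχ.differentiable (by simp)
  have dφ : Differentiable ℝ φ := hφ.differentiable (by simp)
  have e1 : (fun y => fderiv ℝ (fun x => χ x • φ x) y u) =
      fun y => χ y • fderiv ℝ φ y u + fderiv ℝ χ y u • φ y := by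
    funext y
    rw [fderiv_fun_smul (dχ y) (dφ y)]
    simp
  have d2 : DifferentiableAt ℝ (fun y => fderiv ℝ φ y u) z :=
    (fd_smooth hφ.contDiffAt u).differentiableAt (by simp)
  have d4 : DifferentiableAt ℝ (fderiv ℝ χ) z :=
    (hχ.fderiv_right (m := ∞) (by simp)).differentiable (by simp) z
  have d3 : DifferentiableAt ℝ (fun y => fderiv ℝ χ y u) z :=
    d4.clm_apply (differentiableAt_const u)
  have e3 : fderiv ℝ (fun y => fderiv ℝ χ y u) z v = fderiv ℝ (fderiv ℝ χ) z v u := by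
    rw [fderiv_clm_apply d4 (differentiableAt_const u)]
    simp
  have h5 : HasFDerivAt (fun y => χ y • fderiv ℝ φ y u + fderiv ℝ χ y u • φ y)
      ((χ z • fderiv ℝ (fun y => fderiv ℝ φ y u) z +
        (fderiv ℝ χ z).smulRight (fderiv ℝ φ z u)) +
        (fderiv ℝ χ z u • fderiv ℝ φ z +
          (fderiv ℝ (fun y => fderiv ℝ χ y u) z).smulRight (φ z))) z :=
    ((dχ z).hasFDerivAt.smul d2.hasFDerivAt).add (d3.hasFDerivAt.smul (dφ z).hasFDerivAt)
  rw [e1, h5.fderiv]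
  simp only [add_apply, smul_apply, ContinuousLinearMap.smulRight_apply, e3]

/-- the mixed second derivative is bounded by the real second derivatives -/
theorem mixed_le {X : EC n → ℂ} (hX : ContDiff ℝ ∞ X) (z : EC n) (b : ℝ)
    (hb : ∀ u v : EC n, ‖u‖ = 1 → ‖v‖ = 1 → ‖fderiv ℝ (fun y => fderiv ℝ X y u) z v‖ ≤ b)
    (m l : Fin n) : ‖db m (dz l X) z‖ ≤ b := by
  have hd : ∀ w : EC n, DifferentiableAt ℝ (fun y => fderiv ℝ X y w) z := fun w =>
    (fd_smooth hX.contDiffAt w).differentiableAt (by simp)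
  rw [dz_eq, db_eq]
  show ‖(fderiv ℝ (fun y => (fderiv ℝ X y (ex l) + (-Complex.I) * fderiv ℝ X y (ey l)) / 2) z (ex m) +
    Complex.I * fderiv ℝ (fun y => (fderiv ℝ X y (ex l) + (-Complex.I) * fderiv ℝ X y (ey l)) / 2) z
      (ey m)) / 2‖ ≤ b
  rw [fd_half_sub _ (hd _) (hd _), fd_half_sub _ (hd _) (hd _)]
  have h1 := hb (ex l) (ex m) (norm_ex _) (norm_ex _)
  have h2 := hb (ex l) (ey m) (norm_ex _) (norm_ey _)
  have h3 := hb (ey l) (ex m) (norm_ey _) (norm_ex _)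
  have h4 := hb (ey l) (ey m) (norm_ey _) (norm_ey _)
  set A := fderiv ℝ (fun y => fderiv ℝ X y (ex l)) z (ex m)
  set B := fderiv ℝ (fun y => fderiv ℝ X y (ex l)) z (ey m)
  set C := fderiv ℝ (fun y => fderiv ℝ X y (ey l)) z (ex m)
  set D := fderiv ℝ (fun y => fderiv ℝ X y (ey l)) z (ey m)
  have e1 : ((A + -Complex.I * C) / 2 + Complex.I * ((B + -Complex.I * D) / 2)) / 2 =
      (1 / 4 : ℂ) * (A + -Complex.I * C + Complex.I * B + -Complex.I * (Complex.I * D)) := by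
    ring
  rw [e1, norm_mul]
  have n1 : ‖(1 / 4 : ℂ)‖ = 1 / 4 := by norm_num
  have n2 : ‖-Complex.I * C‖ = ‖C‖ := by rw [norm_mul, norm_neg, Complex.norm_I, one_mul]
  have n3 : ‖Complex.I * B‖ = ‖B‖ := by rw [norm_mul, Complex.norm_I, one_mul]
  have n4 : ‖-Complex.I * (Complex.I * D)‖ = ‖D‖ := by
    rw [norm_mul, norm_mul, norm_neg, Complex.norm_I, one_mul, one_mul]
  have t := norm_add₄_le (a := A) (b := -Complex.I * C) (c := Complex.I * B)
    (d := -Complex.I * (Complex.I * D))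
  rw [n2, n3, n4] at t
  rw [n1]
  linarith

theorem snd_le {E F : Type*} [NormedAddCommGroup E] [NormedSpace ℝ E] [NormedAddCommGroup F]
    [NormedSpace ℝ F] (L : E →L[ℝ] E →L[ℝ] F) (u v : E) (hu : ‖u‖ = 1) (hv : ‖v‖ = 1) :
    ‖L v u‖ ≤ ‖L‖ := by
  have h3 := (L v).le_opNorm u
  have h4 := L.le_opNorm v
  rw [hu, mul_one] at h3
  rw [hv, mul_one] at h4
  exact h3.trans h4

theorem snd_eq {E F : Type*} [NormedAddCommGroup E] [NormedSpace ℝ E] [NormedAddCommGroup F]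
    [NormedSpace ℝ F] {f : E → F} (hf : ContDiff ℝ ∞ f) (z u v : E) :
    fderiv ℝ (fun y => fderiv ℝ f y u) z v = fderiv ℝ (fderiv ℝ f) z v u := by
  have d4 : DifferentiableAt ℝ (fderiv ℝ f) z :=
    (hf.fderiv_right (m := ∞) (by simp)).differentiable (by simp) z
  rw [fderiv_clm_apply d4 (differentiableAt_const u)]
  simp

theorem bd_two {E F : Type*} [NormedAddCommGroup E] [NormedSpace ℝ E] [NormedAddCommGroup F]
    [NormedSpace ℝ F] {f : E → F} (hf : ContDiff ℝ ∞ f) (hc : HasCompactSupport f) :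
    ∃ B : ℝ, (∀ z, ‖fderiv ℝ f z‖ ≤ B)  := by
  exact (hc.fderiv ℝ).exists_bound_of_continuous (hf.continuous_fderiv (by simp))

theorem bd_gen {E F : Type*} [NormedAddCommGroup E] [NormedSpace ℝ E] [NormedAddCommGroup F]
    [NormedSpace ℝ F] {f : E → F} (hf : ContDiff ℝ ∞ f) (hc : HasCompactSupport f) :
    ∃ B0 B1 B2 : ℝ, (∀ z, ‖f z‖ ≤ B0) ∧ (∀ z, ‖fderiv ℝ f z‖ ≤ B1) ∧
      ∀ z, ‖fderiv ℝ (fderiv ℝ f) z‖ ≤ B2 := by
  have hφ1 : ContDiff ℝ ∞ (fderiv ℝ f) := hf.fderiv_right (m := ∞) (by simp)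
  obtain ⟨B0, h0⟩ := hc.exists_bound_of_continuous hf.continuous
  obtain ⟨B1, h1⟩ := bd_two hf hc
  obtain ⟨B2, h2⟩ := bd_two hφ1 (hc.fderiv ℝ)
  exact ⟨B0, B1, B2, h0, h1, h2⟩

/-- compactly supported smooth functions have bounded derivatives up to order two -/
theorem bd_test {φ : EC n → ℂ} (hφ : ContDiff ℝ ∞ φ) (hc : HasCompactSupport φ) :
    ∃ B : ℝ, 0 ≤ B ∧ (∀ z, ‖φ z‖ ≤ B) ∧ (∀ z, ‖fderiv ℝ φ z‖ ≤ B) ∧
      ∀ z u v : EC n, ‖u‖ = 1 → ‖v‖ = 1 → ‖fderiv ℝ (fun y => fderiv ℝ φ y u) z v‖ ≤ B := by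
  obtain ⟨B0, B1, B2, h0, h1, h2⟩ := bd_gen hφ hc
  refine ⟨max (max B0 B1) B2, ?_, fun z => ?_, fun z => ?_, fun z u v hu hv => ?_⟩
  · exact (norm_nonneg (φ 0)).trans ((h0 0).trans ((le_max_left _ _).trans (le_max_left _ _)))
  · exact (h0 z).trans ((le_max_left _ _).trans (le_max_left _ _))
  · exact (h1 z).trans ((le_max_right _ _).trans (le_max_left _ _))
  · rw [snd_eq hφ]
    exact (snd_le _ u v hu hv).trans ((h2 z).trans (le_max_right _ _))

theorem second_le {χ : EC n → ℝ} {φ : EC n → ℂ} (hχ : ContDiff ℝ ∞ χ) (hφ : ContDiff ℝ ∞ φ)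
    {B : ℝ} (hB : 0 ≤ B) (h0 : ∀ z, ‖φ z‖ ≤ B) (h1 : ∀ z, ‖fderiv ℝ φ z‖ ≤ B)
    (h2 : ∀ z u v : EC n, ‖u‖ = 1 → ‖v‖ = 1 → ‖fderiv ℝ (fun y => fderiv ℝ φ y u) z v‖ ≤ B)
    (z u v : EC n) (hu : ‖u‖ = 1) (hv : ‖v‖ = 1) :
    ‖fderiv ℝ (fun y => fderiv ℝ (fun x => χ x • φ x) y u) z v‖ ≤
      2 * B * (|χ z| + ‖fderiv ℝ χ z‖ + ‖fderiv ℝ (fderiv ℝ χ) z‖) := by
  rw [second_prod hχ hφ]
  have a1 : ‖χ z • fderiv ℝ (fun y => fderiv ℝ φ y u) z v‖ ≤ |χ z| * B := by
    rw [norm_smul, Real.norm_eq_abs]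
    exact mul_le_mul_of_nonneg_left (h2 z u v hu hv) (abs_nonneg _)
  have b1 : ∀ w : EC n, ‖w‖ = 1 → ‖fderiv ℝ χ z w‖ ≤ ‖fderiv ℝ χ z‖ := fun w hw => by
    have := (fderiv ℝ χ z).le_opNorm w
    rwa [hw, mul_one] at this
  have b2 : ∀ w : EC n, ‖w‖ = 1 → ‖fderiv ℝ φ z w‖ ≤ B := fun w hw => by
    have := (fderiv ℝ φ z).le_opNorm w
    rw [hw, mul_one] at this
    exact this.trans (h1 z)
  have b3 : ‖fderiv ℝ (fderiv ℝ χ) z v u‖ ≤ ‖fderiv ℝ (fderiv ℝ χ) z‖ := snd_le _ u v hu hv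
  have b0 : 0 ≤ ‖fderiv ℝ (fderiv ℝ χ) z‖ := (fderiv ℝ (fderiv ℝ χ) z).opNorm_nonneg
  have a2 : ‖fderiv ℝ χ z v • fderiv ℝ φ z u‖ ≤ ‖fderiv ℝ χ z‖ * B := by
    rw [norm_smul]
    exact mul_le_mul (b1 v hv) (b2 u hu) (norm_nonneg _) (norm_nonneg _)
  have a3 : ‖fderiv ℝ χ z u • fderiv ℝ φ z v‖ ≤ ‖fderiv ℝ χ z‖ * B := by
    rw [norm_smul]
    exact mul_le_mul (b1 u hu) (b2 v hv) (norm_nonneg _) (norm_nonneg _)
  have a4 : ‖fderiv ℝ (fderiv ℝ χ) z v u • φ z‖ ≤ ‖fderiv ℝ (fderiv ℝ χ) z‖ * B := by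
    rw [norm_smul]
    exact mul_le_mul b3 (h0 z) (norm_nonneg _) b0
  have t1 := norm_add_le (χ z • fderiv ℝ (fun y => fderiv ℝ φ y u) z v +
    fderiv ℝ χ z v • fderiv ℝ φ z u)
    (fderiv ℝ χ z u • fderiv ℝ φ z v + fderiv ℝ (fderiv ℝ χ) z v u • φ z)
  have t2 := norm_add_le (χ z • fderiv ℝ (fun y => fderiv ℝ φ y u) z v)
    (fderiv ℝ χ z v • fderiv ℝ φ z u)
  have t3 := norm_add_le (fderiv ℝ χ z u • fderiv ℝ φ z v)
    (fderiv ℝ (fderiv ℝ χ) z v u • φ z)
  have p1 : 0 ≤ |χ z| * B := by positivity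
  have p2 : 0 ≤ ‖fderiv ℝ (fderiv ℝ χ) z‖ * B := mul_nonneg b0 hB
  nlinarith

theorem s_WPC : S_WPC := by
  intro hnull hmass hcut hcomp n hn O K σ R hR hg hK hKR hRO
  obtain ⟨hK0, -⟩ := hnull n hn K hK
  have hKc : IsClosed K := hK.1.isClosed
  obtain ⟨C, hC0, hC⟩ := hmass hnull n hn O K σ R hR hg hK hKR hRO
  have hQm : MeasurableSet (Qc n R) := (Qc_closed n R).measurableSet
  have hS : IsOpen (O \ K) := hg.isOpen.sdiff hKc
  -- measurability
  have hmeas : ∀ j k, AEStronglyMeasurable (HH σ j k) (volume.restrict (Qc n R)) := by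
    intro j k
    have h1 : AEStronglyMeasurable (HH σ j k) (volume.restrict (Qc n R \ K)) := by
      refine ContinuousOn.aestronglyMeasurable ?_ (hQm.diff hKc.measurableSet)
      exact (HH_smooth hg.smooth j k).continuousOn.mono (fun z hz => ⟨hRO hz.1, hz.2⟩)
    rwa [Measure.restrict_congr_set (sdiff_null_ae_eq_self hK0)] at h1
  have hself : Qc n R ∩ {z | z - 0 ∈ Qc n R} = Qc n R := by
    ext z; simp
  have hint : ∀ j k, IntegrableOn (HH σ j k) (Qc n R) volume := by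
    intro j k
    refine ⟨hmeas j k, ?_⟩
    rw [hasFiniteIntegral_iff_norm]
    have := hC j k 0 R hR
    rw [hself] at this
    exact this.trans_lt ENNReal.ofReal_lt_top
  refine ⟨fun j k => (integrable_indicator_iff hQm).2 (hint j k), ?_⟩
  intro φ hφt l j k m
  obtain ⟨hφ, hφc, hφs⟩ := hφt
  -- second derivatives of test functions: integrability
  have hT : ∀ ψ : EC n → ℂ, ContDiff ℝ ∞ ψ → HasCompactSupport ψ → ∀ p q : Fin n,
      ContDiff ℝ ∞ (db p (dz q ψ)) ∧ HasCompactSupport (db p (dz q ψ)) ∧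
        tsupport (db p (dz q ψ)) ⊆ tsupport ψ := by
    intro ψ h1 h2 p q
    obtain ⟨a1, a2, a3⟩ := dz_supp h1 h2 q
    obtain ⟨b1, b2, b3⟩ := db_supp a1 a2 p
    exact ⟨b1, b2, b3.trans a3⟩
  have hI : ∀ ψ : EC n → ℂ, ContDiff ℝ ∞ ψ → HasCompactSupport ψ → ∀ a b p q : Fin n,
      IntegrableOn (fun z => HH σ a b z * db p (dz q ψ) z) (Qc n R) volume := by
    intro ψ h1 h2 a b p q
    obtain ⟨a1, a2, a3⟩ := hT ψ h1 h2 p q
    obtain ⟨c, hc⟩ := a2.exists_bound_of_continuous a1.continuous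
    exact (hint a b).mul_bdd (c := c) a1.continuous.aestronglyMeasurable (Eventually.of_forall hc)
  -- the functional
  set J : (EC n → ℂ) → Fin n → Fin n → Fin n → Fin n → ℂ := fun ψ a b p q =>
    ∫ z in Qc n R, HH σ a b z * db p (dz q ψ) z with hJ
  have hsplit : ∀ ψ : EC n → ℂ, ContDiff ℝ ∞ ψ → HasCompactSupport ψ → ∀ a b p q a' b' p' q',
      ∫ z in Qc n R, (HH σ a b z * db p (dz q ψ) z - HH σ a' b' z * db p' (dz q' ψ) z) =
        J ψ a b p q - J ψ a' b' p' q' := by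
    intro ψ h1 h2 a b p q a' b' p' q'
    exact integral_sub (hI ψ h1 h2 a b p q) (hI ψ h1 h2 a' b' p' q')
  rw [hsplit φ hφ hφc, hsplit φ hφ hφc]
  -- bounds of φ
  obtain ⟨B, hB, h0, h1, h2⟩ := bd_test hφ hφc
  -- the measure
  set ν : Fin n → Fin n → Measure (EC n) := fun a b =>
    (volume.restrict (Qc n R)).withDensity (fun z => ENNReal.ofReal ‖HH σ a b z‖) with hν
  set μ : Measure (EC n) := ∑ a, ∑ b, ν a b with hμ
  have hνs : ∀ a b (s : Set (EC n)), MeasurableSet s →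
      ν a b s = ∫⁻ z in Qc n R ∩ s, ENNReal.ofReal ‖HH σ a b z‖ := by
    intro a b s hs
    rw [hν]
    show ((volume.restrict (Qc n R)).withDensity (fun z => ENNReal.ofReal ‖HH σ a b z‖)) s = _
    rw [withDensity_apply _ hs, Measure.restrict_restrict hs, inter_comm]
  have hμg : ∀ (c : EC n) (s : ℝ), 0 < s → μ {z | z - c ∈ Qc n s} ≤
      ENNReal.ofReal ((n * n * C) * s ^ (2 * n - 2)) := by
    intro c s hs
    have e1 : μ {z | z - c ∈ Qc n s} = ∑ a, ∑ b, ν a b {z | z - c ∈ Qc n s} := by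
      rw [hμ]
      simp [Measure.finsetSum_apply]
    rw [e1]
    calc ∑ a, ∑ b, ν a b {z | z - c ∈ Qc n s}
        ≤ ∑ a : Fin n, ∑ b : Fin n, ENNReal.ofReal (C * s ^ (2 * n - 2)) := by
          refine Finset.sum_le_sum fun a _ => Finset.sum_le_sum fun b _ => ?_
          rw [hνs a b _ (shift_closed n c s).measurableSet]
          exact hC a b c s hs
      _ = ENNReal.ofReal ((n * n * C) * s ^ (2 * n - 2)) := by
          simp only [Finset.sum_const, Finset.card_univ, Fintype.card_fin, nsmul_eq_mul]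
          rw [← mul_assoc, mul_assoc (n * n : ℝ) C, ENNReal.ofReal_mul (p := (n * n : ℝ)) (by positivity),
            ENNReal.ofReal_mul (p := (n : ℝ)) (by positivity), ENNReal.ofReal_natCast]
  -- the estimate
  have hest : ∀ η : ℝ, 0 < η →
      ‖(J φ j k m l - J φ l k m j) - (J φ j m k l - J φ l m k j)‖ ≤ 4 * (2 * B * η) := by
    intro η hη
    obtain ⟨χ, c1, c2, c3, c4, ⟨N, n1, n2, n3⟩, c6⟩ := hcut n hn K hK μ (n * n * C) (by positivity)
      hμg (Qo n R) (Qo_open n R) hKR η hη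
    set φ₂ : EC n → ℂ := fun x => χ x • φ x with hφ₂
    set φ₁ : EC n → ℂ := fun x => φ x - χ x • φ x with hφ₁
    have s2 : ContDiff ℝ ∞ φ₂ := c1.smul hφ
    have s1 : ContDiff ℝ ∞ φ₁ := hφ.sub s2
    have k2 : HasCompactSupport φ₂ := hφc.smul_left (f := χ)
    have t1 : tsupport φ₁ ⊆ tsupport φ := by
      refine closure_mono fun x hx => ?_
      intro h
      exact hx (by simp [hφ₁, h])
    have k1 : HasCompactSupport φ₁ := HasCompactSupport.of_support_subset_isCompact hφc.isCompact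
      ((subset_tsupport _).trans t1)
    have t1' : tsupport φ₁ ⊆ O \ K := by
      intro x hx
      refine ⟨hRO (Qo_sub_Qc n R (hφs (t1 hx))), fun hxK => ?_⟩
      have : x ∉ tsupport φ₁ := by
        rw [notMem_tsupport_iff_eventuallyEq]
        filter_upwards [n1.mem_nhds (n2 hxK)] with y hy
        simp [hφ₁, n3 y hy]
      exact this hx
    -- the part off K
    have z1 : ∀ a b p q, J φ₁ a b p q = ∫ z, HH σ a b z * db p (dz q φ₁) z := by
      intro a b p q
      refine setIntegral_eq_integral_of_forall_compl_eq_zero fun z hz => ?_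
      have : db p (dz q φ₁) z = 0 := image_eq_zero_of_notMem_tsupport (fun h =>
        hz (Qo_sub_Qc n R (hφs (t1 ((hT φ₁ s1 k1 p q).2.2 h)))))
      rw [this, mul_zero]
    have w1 : (J φ₁ j k m l - J φ₁ l k m j) - (J φ₁ j m k l - J φ₁ l m k j) = 0 := by
      rw [z1, z1, z1, z1, full hcomp hg hKc s1 k1 t1']
      ring
    -- additivity
    have add : ∀ a b p q, J φ a b p q = J φ₁ a b p q + J φ₂ a b p q := by
      intro a b p q
      rw [hJ]
      show ∫ z in Qc n R, HH σ a b z * db p (dz q φ) z = _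
      rw [← integral_add (hI φ₁ s1 k1 a b p q) (hI φ₂ s2 k2 a b p q)]
      refine integral_congr_ae (Eventually.of_forall fun z => ?_)
      show HH σ a b z * db p (dz q φ) z =
        HH σ a b z * db p (dz q φ₁) z + HH σ a b z * db p (dz q φ₂) z
      have q1 : dz q φ = fun y => dz q φ₁ y + dz q φ₂ y := by
        funext y
        rw [← dz_add (s1.differentiable (by simp) y) (s2.differentiable (by simp) y)]
        congr 1
        funext x
        simp [hφ₁, hφ₂]
      rw [q1, db_add ((dz_smoothAt s1.contDiffAt q).differentiableAt (by simp))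
        ((dz_smoothAt s2.contDiffAt q).differentiableAt (by simp))]
      ring
    -- the part near K
    have small : ∀ a b p q, ‖J φ₂ a b p q‖ ≤ 2 * B * η := by
      intro a b p q
      set F : EC n → ℝ := fun z => |χ z| + ‖fderiv ℝ χ z‖ + ‖fderiv ℝ (fderiv ℝ χ) z‖ with hF
      have hFc : Continuous F := by
        have hχ1 : ContDiff ℝ ∞ (fderiv ℝ χ) := c1.fderiv_right (m := ∞) (by simp)
        exact ((continuous_abs.comp c1.continuous).add hχ1.continuous.norm).add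
          (hχ1.continuous_fderiv (by simp)).norm
      have hpt : ∀ z, ‖db p (dz q φ₂) z‖ ≤ 2 * B * F z := by
        intro z
        exact mixed_le s2 z _ (fun u v hu hv => second_le c1 hφ hB h0 h1 h2 z u v hu hv) p q
      have b1 : ∫⁻ z, ENNReal.ofReal (F z) ∂(ν a b) ≤ ENNReal.ofReal η := by
        refine le_trans ?_ c6
        rw [hμ]
        have e2 : ∫⁻ z, ENNReal.ofReal (F z) ∂(∑ a, ∑ b, ν a b) =
            ∑ a, ∑ b, ∫⁻ z, ENNReal.ofReal (F z) ∂(ν a b) := by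
          rw [lintegral_finsetSum_measure]
          refine Finset.sum_congr rfl fun a _ => ?_
          rw [lintegral_finsetSum_measure]
        rw [e2]
        refine le_trans ?_ (Finset.single_le_sum (f := fun a => ∑ b, ∫⁻ z, ENNReal.ofReal (F z) ∂(ν a b))
          (fun _ _ => zero_le) (Finset.mem_univ a))
        exact Finset.single_le_sum (f := fun b => ∫⁻ z, ENNReal.ofReal (F z) ∂(ν a b))
          (fun _ _ => zero_le) (Finset.mem_univ b)
      have b2 : ∫⁻ z, ENNReal.ofReal (F z) ∂(ν a b) =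
          ∫⁻ z in Qc n R, ENNReal.ofReal ‖HH σ a b z‖ * ENNReal.ofReal (F z) := by
        rw [hν]
        show ∫⁻ z, ENNReal.ofReal (F z) ∂((volume.restrict (Qc n R)).withDensity
          (fun z => ENNReal.ofReal ‖HH σ a b z‖)) = _
        rw [lintegral_withDensity_eq_lintegral_mul₀ (hmeas a b).norm.aemeasurable.ennreal_ofReal
          (hFc.measurable.ennreal_ofReal).aemeasurable]
        rfl
      rw [b2] at b1
      have b3 := norm_integral_le_lintegral_norm (μ := volume.restrict (Qc n R))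
        (fun z => HH σ a b z * db p (dz q φ₂) z)
      refine b3.trans ?_
      refine ENNReal.toReal_le_of_le_ofReal (by positivity) ?_
      calc ∫⁻ z in Qc n R, ENNReal.ofReal ‖HH σ a b z * db p (dz q φ₂) z‖
          ≤ ∫⁻ z in Qc n R, ENNReal.ofReal (2 * B) *
              (ENNReal.ofReal ‖HH σ a b z‖ * ENNReal.ofReal (F z)) := by
            refine lintegral_mono fun z => ?_
            rw [← ENNReal.ofReal_mul (norm_nonneg _), ← ENNReal.ofReal_mul (by positivity)]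
            refine ENNReal.ofReal_le_ofReal ?_
            rw [norm_mul]
            calc ‖HH σ a b z‖ * ‖db p (dz q φ₂) z‖ ≤ ‖HH σ a b z‖ * (2 * B * F z) :=
                  mul_le_mul_of_nonneg_left (hpt z) (norm_nonneg _)
              _ = 2 * B * (‖HH σ a b z‖ * F z) := by ring
        _ = ENNReal.ofReal (2 * B) * ∫⁻ z in Qc n R,
              (ENNReal.ofReal ‖HH σ a b z‖ * ENNReal.ofReal (F z)) := by
            rw [lintegral_const_mul' _ _ ENNReal.ofReal_ne_top]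
        _ ≤ ENNReal.ofReal (2 * B) * ENNReal.ofReal η := by gcongr
        _ = ENNReal.ofReal (2 * B * η) := by rw [← ENNReal.ofReal_mul (by positivity)]
    have w2 : (J φ j k m l - J φ l k m j) - (J φ j m k l - J φ l m k j) =
        (J φ₂ j k m l - J φ₂ l k m j) - (J φ₂ j m k l - J φ₂ l m k j) := by
      rw [add, add, add, add]
      linear_combination w1
    rw [w2]
    have r1 := small j k m l
    have r2 := small l k m j
    have r3 := small j m k l
    have r4 := small l m k j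
    have t2 := norm_sub_le (J φ₂ j k m l - J φ₂ l k m j) (J φ₂ j m k l - J φ₂ l m k j)
    have t3 := norm_sub_le (J φ₂ j k m l) (J φ₂ l k m j)
    have t4 := norm_sub_le (J φ₂ j m k l) (J φ₂ l m k j)
    linarith
  have hz : ‖(J φ j k m l - J φ l k m j) - (J φ j m k l - J φ l m k j)‖ ≤ 0 := by
    refine le_of_forall_pos_le_add fun ε hε => ?_
    have hB1 : 0 < 8 * B + 1 := by linarith
    have := hest (ε / (8 * B + 1)) (by positivity)
    refine this.trans ?_
    rw [zero_add]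
    have : 4 * (2 * B * (ε / (8 * B + 1))) = ε * (8 * B / (8 * B + 1)) := by ring
    rw [this]
    have h5 : 8 * B / (8 * B + 1) ≤ 1 := (div_le_one hB1).2 (by linarith)
    nlinarith
  have := norm_le_zero_iff.1 hz
  exact sub_eq_zero.1 this

end Pool.Agent.L7h47.RS
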