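import Pool.Agent.L7h47.RS.Plane

/-!
# Project RS: the mass estimate (helper47)
-/

set_option autoImplicit false

open Set Filter Topology MeasureTheory
open scoped ContDiff ComplexConjugate ENNReal

noncomputable section

namespace Pool.Agent.L7h47.RS

open Pool.Agent.L7h17.RS

variable {n : ℕ}

/-- closed squares in the complex plane -/
def Sq (R : ℝ) : Set ℂ := {a | |a.re| ≤ R ∧ |a.im| ≤ R}

theorem Sq_pre (R : ℝ) : Sq R = Complex.measurableEquivPi ⁻¹'
    Icc (fun _ : Fin 2 => -R) (fun _ => R) := by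
  ext a
  simp only [Sq, mem_ofPred_eq, mem_preimage, mem_Icc, Pi.le_def, Fin.forall_fin_two,
    Complex.measurableEquivPi_apply, abs_le]
  simp
  tauto

theorem Sq_meas (R : ℝ) : MeasurableSet (Sq R) := by
  rw [Sq_pre]
  exact Complex.measurableEquivPi.measurable measurableSet_Icc

theorem Sq_vol (R : ℝ) : volume (Sq R) = ENNReal.ofReal (2 * R) ^ 2 := by
  rw [Sq_pre, Complex.volume_preserving_equiv_pi.measure_preimage
    measurableSet_Icc.nullMeasurableSet, Real.volume_Icc_pi, Fin.prod_univ_two, ← sq]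
  congr 2
  ring

theorem smul_ex (a : ℂ) (j : Fin n) : a • ex j = a.re • ex j + a.im • ey j := by
  funext k
  by_cases h : k = j
  · subst h
    simp [ex, ey]
  · simp [ex, ey, Pi.single_eq_of_ne h]

/-- the square estimate -/
theorem square_bound {σ : EC n → F2 n} {K O : Set (EC n)} {j m : Fin n} (hjm : j ≠ m)
    {R M : ℝ} (hR : 0 < R) (hM0 : 0 ≤ M) (hg : Good O K σ) (hK : IsClosed K) (hRO : Qc n R ⊆ O)
    (hM : ∀ z ∈ Qc n R \ Qo n R, ‖σ z‖ ≤ M) (z₀ : EC n) (h0 : z₀ j = 0) (hz : z₀ ∈ Qc n R)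
    (hmiss : ∀ v : Fin 3 → ℝ, z₀ + PL j m v ∉ K) :
    ∫⁻ a in Sq R, ENNReal.ofReal (σ (z₀ + a • ex j) ![ex j, ey j]) ≤
      ENNReal.ofReal (5 * (M * (2 * R) ^ 2)) := by
  have h1 := plane_bound hjm hR hM0 hg hK hRO hM z₀ h0 hz hmiss
  set g : (Fin 2 → ℝ) → ℝ := fun x => σ (z₀ + PL j m ![x 0, x 1, 0]) ![ex j, ey j] with hgd
  have h2 : ∀ a : ℂ, ENNReal.ofReal (σ (z₀ + a • ex j) ![ex j, ey j]) =
      ENNReal.ofReal (g (Complex.measurableEquivPi a)) := by
    intro a
    rw [hgd]
    congr 3
    rw [PL_apply, smul_ex]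
    simp
  have h3 : ∫⁻ a in Sq R, ENNReal.ofReal (σ (z₀ + a • ex j) ![ex j, ey j]) =
      ∫⁻ x in Icc (fun _ : Fin 2 => -R) (fun _ => R), ENNReal.ofReal (g x) := by
    simp only [h2]
    rw [Sq_pre]
    exact Complex.volume_preserving_equiv_pi.setLIntegral_comp_preimage_emb
      Complex.measurableEquivPi.measurableEmbedding (fun x => ENNReal.ofReal (g x)) _
  rw [h3]
  have hb := abs_le.1 (hz m).1
  have hin : ∀ x ∈ Icc (fun _ : Fin 2 => -R) (fun _ => R),
      z₀ + PL j m ![x 0, x 1, 0] ∈ O \ K := by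
    intro x hx
    refine ⟨hRO (box_Qc hjm h0 hz ?_), hmiss _⟩
    constructor
    · intro l
      fin_cases l
      · exact hx.1 0
      · exact hx.1 1
      · simp; linarith
    · intro l
      fin_cases l
      · exact hx.2 0
      · exact hx.2 1
      · simp
  have hopen : IsOpen (O \ K) := hg.isOpen.sdiff hK
  have hcont : ContinuousOn g (Icc (fun _ : Fin 2 => -R) (fun _ => R)) := by
    intro x hx
    have c1 : ContinuousAt σ (z₀ + PL j m ![x 0, x 1, 0]) :=
      (hg.smooth.contDiffAt (hopen.mem_nhds (hin x hx))).continuousAt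
    have c2 : ContinuousAt (fun x : Fin 2 → ℝ => z₀ + PL j m ![x 0, x 1, 0]) x := by
      refine Continuous.continuousAt ?_
      refine continuous_const.add ((PL j m).continuous.comp ?_)
      refine continuous_pi fun l => ?_
      fin_cases l
      · exact continuous_apply 0
      · exact continuous_apply 1
      · exact continuous_const
    have c3 : ContinuousAt (fun x : Fin 2 → ℝ => σ (z₀ + PL j m ![x 0, x 1, 0])) x :=
      ContinuousAt.comp (g := σ) c1 c2
    exact (((ContinuousAlternatingMap.apply ℝ (EC n) ℝ ![ex j, ey j]).continuous.continuousAt).comp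
      c3).continuousWithinAt
  have hint : IntegrableOn g (Icc (fun _ : Fin 2 => -R) (fun _ => R)) :=
    hcont.integrableOn_compact isCompact_Icc
  have hnn : 0 ≤ᵐ[volume.restrict (Icc (fun _ : Fin 2 => -R) (fun _ => R))] g := by
    refine (ae_restrict_iff' measurableSet_Icc).2 (Eventually.of_forall fun x hx => ?_)
    have h5 := hg.nonneg _ (hin x hx) (ex j)
    have h6 : (Complex.I • ex j : EC n) = ey j := by
      rw [smul_ex]; simp
    unfold qq at h5
    rw [h6] at h5
    exact h5
  rw [← ofReal_integral_eq_lintegral_ofReal hint hnn]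
  exact ENNReal.ofReal_le_ofReal h1

theorem Qc_vol (N : ℕ) (s : ℝ) : volume (Qc N s) = ENNReal.ofReal (2 * s) ^ (2 * N) := by
  have h1 : Qc N s = Set.pi univ fun _ : Fin N => Sq s := by
    ext z
    simp [Qc, Sq, Set.mem_pi]
  rw [h1, volume_pi_pi]
  simp only [Sq_vol]
  rw [Finset.prod_const, Finset.card_univ, Fintype.card_fin, ← pow_mul]

theorem Qc_closed (N : ℕ) (s : ℝ) : IsClosed (Qc N s) := by
  have h1 : Qc N s = ⋂ j : Fin N, ({z : EC N | |(z j).re| ≤ s} ∩ {z | |(z j).im| ≤ s}) := by
    ext z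
    simp [Qc]
  rw [h1]
  refine isClosed_iInter fun j => IsClosed.inter ?_ ?_
  · exact isClosed_le (continuous_abs.comp (Complex.continuous_re.comp (continuous_apply j)))
      continuous_const
  · exact isClosed_le (continuous_abs.comp (Complex.continuous_im.comp (continuous_apply j)))
      continuous_const

theorem Qo_open (N : ℕ) (s : ℝ) : IsOpen (Qo N s) := by
  have h1 : Qo N s = ⋂ j : Fin N, ({z : EC N | |(z j).re| < s} ∩ {z | |(z j).im| < s}) := by
    ext z
    simp [Qo]
  rw [h1]
  refine isOpen_iInter_of_finite fun j => IsOpen.inter ?_ ?_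
  · exact isOpen_lt (continuous_abs.comp (Complex.continuous_re.comp (continuous_apply j)))
      continuous_const
  · exact isOpen_lt (continuous_abs.comp (Complex.continuous_im.comp (continuous_apply j)))
      continuous_const

theorem Qc_compact (N : ℕ) (s : ℝ) : IsCompact (Qc N s) := by
  refine Metric.isCompact_of_isClosed_isBounded (Qc_closed N s) ?_
  refine (Metric.isBounded_closedBall (x := (0 : EC N)) (r := 2 * |s|)).subset ?_
  intro z hz
  rw [mem_closedBall_zero_iff]
  refine (pi_norm_le_iff_of_nonneg (by positivity)).2 fun j => ?_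
  have h1 := Complex.norm_le_abs_re_add_abs_im (z j)
  have h2 := hz j
  have h3 := le_abs_self s
  linarith [h2.1, h2.2]

theorem shift_vol (N : ℕ) (c : EC N) (s : ℝ) :
    volume {z : EC N | z - c ∈ Qc N s} = ENNReal.ofReal (2 * s) ^ (2 * N) := by
  rw [← Qc_vol, ← measure_preimage_add_right volume (-c) (Qc N s)]
  congr 1

theorem shift_closed (N : ℕ) (c : EC N) (s : ℝ) : IsClosed {z : EC N | z - c ∈ Qc N s} :=
  (Qc_closed N s).preimage (continuous_id.sub continuous_const)

theorem diag_aem {N : ℕ} {O K : Set (EC N)} {σ : EC N → F2 N} {A : Set (EC N)} (hg : Good O K σ)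
    (hKc : IsClosed K) (hK0 : volume K = 0) (hAm : MeasurableSet A) (hAO : A ⊆ O) (j : Fin N) :
    AEMeasurable (fun z => ENNReal.ofReal (σ z ![ex j, ey j])) (volume.restrict A) := by
  have h1 : AEMeasurable (fun z => ENNReal.ofReal (σ z ![ex j, ey j]))
      (volume.restrict (A \ K)) := by
    refine ContinuousOn.aemeasurable ?_ (hAm.diff hKc.measurableSet)
    refine ENNReal.continuous_ofReal.comp_continuousOn ?_
    have h2 : ContinuousOn σ (A \ K) := hg.smooth.continuousOn.mono
      (fun z hz => ⟨hAO hz.1, hz.2⟩)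
    exact (ContinuousAlternatingMap.apply ℝ (EC N) ℝ ![ex j, ey j]).continuous.comp_continuousOn
      h2
  rwa [Measure.restrict_congr_set (sdiff_null_ae_eq_self hK0)] at h1

/-- the diagonal components are integrable along the squares, hence the mass estimate for them -/
theorem diag_mass (hnull : S_NULL) (N : ℕ) (hN : 2 ≤ N) (O K : Set (EC (N + 1)))
    (σ : EC (N + 1) → F2 (N + 1)) (R M : ℝ) (hR : 0 < R) (hM0 : 0 ≤ M) (hg : Good O K σ)
    (hK : Negl K) (hRO : Qc (N + 1) R ⊆ O)
    (hM : ∀ z ∈ Qc (N + 1) R \ Qo (N + 1) R, ‖σ z‖ ≤ M) (j : Fin (N + 1)) (c : EC (N + 1)) (s : ℝ) :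
    ∫⁻ z in Qc (N + 1) R ∩ {z | z - c ∈ Qc (N + 1) s}, ENNReal.ofReal (σ z ![ex j, ey j]) ≤
      ENNReal.ofReal (5 * (M * (2 * R) ^ 2)) * ENNReal.ofReal (2 * s) ^ (2 * N) := by
  classical
  obtain ⟨m, hm⟩ : ∃ m : Fin (N + 1), j ≠ m := by
    by_cases h : j = 0
    · exact ⟨Fin.last N, by rw [h]; intro h1; have := congrArg Fin.val h1; simp at this; omega⟩
    · exact ⟨0, h⟩
  have hKc : IsClosed K := hK.1.isClosed
  obtain ⟨hK0, hKn⟩ := hnull (N + 1) (by omega) K hK
  set f : EC (N + 1) → ℝ≥0∞ := fun z => ENNReal.ofReal (σ z ![ex j, ey j]) with hf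
  set A : Set (EC (N + 1)) := Qc (N + 1) R ∩ {z | z - c ∈ Qc (N + 1) s} with hA
  have hAm : MeasurableSet A :=
    (Qc_closed _ _).measurableSet.inter (shift_closed _ _ _).measurableSet
  -- measurability
  have hfm : AEMeasurable f (volume.restrict A) :=
    diag_aem hg hKc hK0 hAm (fun z hz => hRO hz.1) j
  have hfi : AEMeasurable (A.indicator f) volume := (aemeasurable_indicator_iff hAm).2 hfm
  set e := MeasurableEquiv.piFinSuccAbove (fun _ : Fin (N + 1) => ℂ) j with he
  have hpres : MeasurePreserving e := volume_preserving_piFinSuccAbove (fun _ => ℂ) j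
  have hsym : MeasurePreserving e.symm := hpres.symm e
  rw [← lintegral_indicator hAm]
  have h1 : ∫⁻ z, A.indicator f z = ∫⁻ p : ℂ × EC N, A.indicator f (e.symm p) :=
    (hsym.lintegral_comp_emb e.symm.measurableEmbedding (A.indicator f)).symm
  rw [h1]
  have h2 : AEMeasurable (fun p : ℂ × EC N => A.indicator f (e.symm p)) volume :=
    hfi.comp_quasiMeasurePreserving hsym.quasiMeasurePreserving
  rw [Measure.volume_eq_prod, lintegral_prod_symm _ h2]
  -- the good planes
  set c' : EC N := fun l => c (j.succAbove l) with hc'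
  set B : Set (EC N) := {z | z - c' ∈ Qc N s} with hB
  have hins : ∀ (a : ℂ) (z' : EC N), e.symm (a, z') = j.insertNth a z' := fun a z' => rfl
  have hdec : ∀ (a : ℂ) (z' : EC N), (j.insertNth a z' : EC (N + 1)) =
      j.insertNth 0 z' + a • ex j := by
    intro a z'
    funext k
    rcases Fin.eq_self_or_eq_succAbove j k with hk | ⟨l, rfl⟩
    · rw [hk]; simp [ex]
    · simp [ex]
  have hae : ∀ᵐ z' : EC N, ∀ v : Fin 3 → ℝ, (j.insertNth 0 z' : EC (N + 1)) + PL j m v ∉ K := by
    set T : Set (EC (N + 1)) := {z | ∃ w ∈ K, ∃ (a : ℂ) (t : ℝ), z = w + a • ex j + t • ex m}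
      with hT
    have hT0 : volume T = 0 := hKn j m hm
    have hT1 : (volume.prod volume : Measure (EC N × ℂ)) (Prod.swap ⁻¹' (e.symm ⁻¹' T)) = 0 := by
      have h4 : (volume : Measure (ℂ × EC N)) (e.symm ⁻¹' T) = 0 := by
        rw [hsym.measure_preimage_equiv]
        exact hT0
      have h5 : MeasurePreserving (Prod.swap : EC N × ℂ → ℂ × EC N) (volume.prod volume)
          (volume.prod volume) := Measure.measurePreserving_swap
      exact h5.quasiMeasurePreserving.preimage_null h4
    have h6 := Measure.measure_ae_null_of_prod_null hT1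
    filter_upwards [h6] with z' hz'
    intro v hv
    have h7 : (Prod.mk z' ⁻¹' (Prod.swap ⁻¹' (e.symm ⁻¹' T)) : Set ℂ) = univ := by
      ext a
      simp only [mem_preimage, mem_univ, iff_true, Prod.swap_prod_mk]
      rw [hins, hdec]
      refine ⟨_, hv, a - ((v 0 : ℂ) + (v 1 : ℂ) * Complex.I), - v 2, ?_⟩
      rw [PL_apply, smul_ex (a - _)]
      simp only [Complex.sub_re, Complex.sub_im, Complex.add_re, Complex.add_im,
        Complex.ofReal_re, Complex.ofReal_im, Complex.mul_re, Complex.mul_im, Complex.I_re,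
        Complex.I_im, smul_ex a]
      simp only [mul_zero, sub_zero, zero_add, mul_one, add_zero, sub_smul, neg_smul]
      abel
    rw [h7] at hz'
    simp at hz'
  have hae2 : ∀ᵐ z' : EC N, ∫⁻ a : ℂ, A.indicator f (e.symm (a, z')) ≤
      B.indicator (fun _ => ENNReal.ofReal (5 * (M * (2 * R) ^ 2))) z' := by
    filter_upwards [hae] with z' hz'
    by_cases hzB : z' ∈ B
    · rw [indicator_of_mem hzB]
      by_cases hzR : z' ∈ Qc N R
      · have h8 : ∀ a : ℂ, A.indicator f (e.symm (a, z')) ≤
            (Sq R).indicator (fun a => ENNReal.ofReal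
              (σ ((j.insertNth 0 z' : EC (N + 1)) + a • ex j) ![ex j, ey j])) a := by
          intro a
          by_cases ha : e.symm (a, z') ∈ A
          · have ha' : a ∈ Sq R := by
              have := ha.1 j
              rw [hins] at this
              simp only [Fin.insertNth_apply_same] at this
              exact this
            rw [indicator_of_mem ha, indicator_of_mem ha', hins, hdec]
          · rw [indicator_of_notMem ha]
            exact zero_le
        refine (lintegral_mono h8).trans ?_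
        rw [lintegral_indicator (Sq_meas R)]
        refine square_bound hm hR hM0 hg hKc hRO hM _ (by simp) ?_ hz'
        intro k
        rcases Fin.eq_self_or_eq_succAbove j k with hk | ⟨l, rfl⟩
        · rw [hk]; simp [hR.le]
        · simpa using hzR l
      · have h8 : ∀ a : ℂ, A.indicator f (e.symm (a, z')) = 0 := by
          intro a
          refine indicator_of_notMem (fun ha => hzR fun l => ?_) _
          have := ha.1 (j.succAbove l)
          rw [hins] at this
          simpa using this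
        simp only [h8, lintegral_zero]
        exact zero_le
    · have h8 : ∀ a : ℂ, A.indicator f (e.symm (a, z')) = 0 := by
        intro a
        refine indicator_of_notMem (fun ha => hzB fun l => ?_) _
        have := ha.2 (j.succAbove l)
        rw [hins] at this
        simpa [hc'] using this
      simp only [h8, lintegral_zero]
      exact zero_le
  refine (lintegral_mono_ae hae2).trans ?_
  rw [lintegral_indicator (shift_closed N c' s).measurableSet, setLIntegral_const, shift_vol]

/-- the off-diagonal components are bounded by the diagonal ones -/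
theorem HH_le (σ : EC n → F2 n) (z : EC n) (hq : ∀ v : EC n, 0 ≤ qq (σ z) v) (j k : Fin n) :
    ‖HH σ j k z‖ ≤ σ z ![ex j, ey j] + σ z ![ex k, ey k] := by
  set τ := σ z with hτ
  have L : ∀ u u' w, τ ![u + u', w] = τ ![u, w] + τ ![u', w] := fun u u' w =>
    (lin1 τ w).map_add u u'
  have Ls : ∀ (c : ℝ) u w, τ ![c • u, w] = c * τ ![u, w] := fun c u w =>
    (lin1 τ w).map_smul c u
  have R1 : ∀ u w w', τ ![u, w + w'] = τ ![u, w] + τ ![u, w'] := fun u w w' => by
    rw [alt2, L, alt2 τ w, alt2 τ w']; ring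
  have Rs : ∀ (c : ℝ) u w, τ ![u, c • w] = c * τ ![u, w] := fun c u w => by
    rw [alt2, Ls, alt2 τ w]; ring
  have self : ∀ u, τ ![u, u] = 0 := fun u => by
    have := alt2 τ u u; linarith
  set X : ℝ := τ ![ex j, ex k] + τ ![ey j, ey k] with hX
  set Y : ℝ := τ ![ex j, ey k] - τ ![ey j, ex k] with hY
  set S : ℝ := τ ![ex j, ey j] + τ ![ex k, ey k] with hS
  have key : ∀ α β : ℝ, α ^ 2 + β ^ 2 = 1 → 0 ≤ S + (α * Y - β * X) := by
    intro α β hab
    have h1 := hq (ex j + (α • ex k + β • ey k))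
    have h2 : Complex.I • (ex j + (α • ex k + β • ey k) : EC n) =
        ey j + (α • ey k + (-β) • ex k) := by
      have e1 : ∀ l : Fin n, (Complex.I • ex l : EC n) = ey l := fun l => by
        rw [smul_ex]; simp
      have e2 : ∀ l : Fin n, (Complex.I • ey l : EC n) = - ex l := fun l => by
        rw [← e1 l, smul_smul, Complex.I_mul_I, neg_one_smul]
      rw [smul_add, smul_add, smul_comm Complex.I α, smul_comm Complex.I β, e1, e1, e2, smul_neg,
        neg_smul]
    unfold qq at h1
    rw [h2] at h1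
    simp only [L, Ls, R1, Rs, self] at h1
    rw [alt2 τ (ey k) (ey j), alt2 τ (ex k) (ey j), alt2 τ (ey k) (ex k)] at h1
    have h3 : α ^ 2 * τ ![ex k, ey k] + β ^ 2 * τ ![ex k, ey k] = τ ![ex k, ey k] := by
      rw [← add_mul, hab, one_mul]
    rw [hS, hX, hY]
    nlinarith [h1, h3]
  have hS0 : 0 ≤ S := by
    have h1 := key 1 0 (by norm_num)
    have h2 := key (-1) 0 (by norm_num)
    linarith
  have hH : HH σ j k z = ((X : ℂ) + (Y : ℂ) * Complex.I) / 4 := by
    unfold HH
    rw [← hτ, hX, hY]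
    push_cast
    ring
  have hn : ‖HH σ j k z‖ = Real.sqrt (X ^ 2 + Y ^ 2) / 4 := by
    rw [hH, norm_div, Complex.norm_add_mul_I]
    simp
  rw [hn]
  set r := Real.sqrt (X ^ 2 + Y ^ 2) with hr
  have hr0 : 0 ≤ r := Real.sqrt_nonneg _
  have hr2 : r ^ 2 = X ^ 2 + Y ^ 2 := Real.sq_sqrt (by positivity)
  rcases hr0.eq_or_lt with h | h
  · rw [← h]; simpa using hS0
  · have h1 := key (-Y / r) (X / r) (by
      rw [div_pow, div_pow, ← add_div, neg_sq, add_comm, ← hr2]
      exact div_self (by positivity))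
    have h2 : -Y / r * Y - X / r * X = - r := by
      have : -Y / r * Y - X / r * X = - (X ^ 2 + Y ^ 2) / r := by ring
      rw [this, ← hr2]
      field_simp
    rw [h2] at h1
    linarith

theorem s_MASS : S_MASS := by
  intro hnull n hn O K σ R hR hg hK hKR hRO
  obtain ⟨N, rfl⟩ : ∃ N, n = N + 1 := ⟨n - 1, by omega⟩
  obtain ⟨hK0, -⟩ := hnull (N + 1) hn K hK
  have hKc : IsClosed K := hK.1.isClosed
  have hcomp : IsCompact (Qc (N + 1) R \ Qo (N + 1) R) := (Qc_compact _ _).diff (Qo_open _ _)
  obtain ⟨M, hM⟩ := hcomp.exists_bound_of_continuousOn (f := σ) (hg.smooth.continuousOn.mono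
    (fun z hz => ⟨hRO hz.1, fun h => hz.2 (hKR h)⟩))
  have hM' : ∀ z ∈ Qc (N + 1) R \ Qo (N + 1) R, ‖σ z‖ ≤ |M| := fun z hz =>
    (hM z hz).trans (le_abs_self M)
  refine ⟨2 * (5 * (|M| * (2 * R) ^ 2)) * 2 ^ (2 * N), by positivity, fun j k c s hs => ?_⟩
  set A : Set (EC (N + 1)) := Qc (N + 1) R ∩ {z | z - c ∈ Qc (N + 1) s} with hA
  have hAm : MeasurableSet A :=
    (Qc_closed _ _).measurableSet.inter (shift_closed _ _ _).measurableSet
  have hAO : A ⊆ O := fun z hz => hRO hz.1
  have h1 : ∀ᵐ z ∂(volume.restrict A), ENNReal.ofReal ‖HH σ j k z‖ ≤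
      ENNReal.ofReal (σ z ![ex j, ey j]) + ENNReal.ofReal (σ z ![ex k, ey k]) := by
    have h2 : ∀ᵐ z : EC (N + 1), z ∉ K := measure_eq_zero_iff_ae_notMem.1 hK0
    filter_upwards [ae_restrict_mem hAm, ae_restrict_of_ae h2] with z hz hzK
    exact (ENNReal.ofReal_le_ofReal (HH_le σ z (hg.nonneg z ⟨hAO hz, hzK⟩) j k)).trans
      ENNReal.ofReal_add_le
  refine (lintegral_mono_ae h1).trans ?_
  rw [lintegral_add_left' (diag_aem hg hKc hK0 hAm hAO j)]
  refine (add_le_add (diag_mass hnull N (by omega) O K σ R |M| hR (abs_nonneg _) hg hK hRO hM' j c s)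
    (diag_mass hnull N (by omega) O K σ R |M| hR (abs_nonneg _) hg hK hRO hM' k c s)).trans ?_
  rw [← ENNReal.ofReal_pow (by positivity), ← ENNReal.ofReal_mul (by positivity),
    ← ENNReal.ofReal_add (by positivity) (by positivity)]
  refine ENNReal.ofReal_le_ofReal (le_of_eq ?_)
  have h3 : 2 * (N + 1) - 2 = 2 * N := by omega
  rw [h3, mul_pow 2 s]
  ring

end Pool.Agent.L7h47.RS
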