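import Pool.Agent.L7h17.RS.Mk

/-!
# Project RS: Stokes' theorem on the three-planes (helper47)
-/

set_option autoImplicit false

open Set Filter Topology MeasureTheory
open scoped ContDiff ComplexConjugate

noncomputable section

namespace Pool.Agent.L7h47.RS

open Pool.Agent.L7h17.RS

variable {n : ℕ}

/-- the parametrisation of the three-plane (linear part) -/
def PL (j m : Fin n) : (Fin 3 → ℝ) →L[ℝ] EC n :=
  (ContinuousLinearMap.proj (R := ℝ) (φ := fun _ : Fin 3 => ℝ) 0).smulRight (ex j) +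
  (ContinuousLinearMap.proj (R := ℝ) (φ := fun _ : Fin 3 => ℝ) 1).smulRight (ey j) +
  (ContinuousLinearMap.proj (R := ℝ) (φ := fun _ : Fin 3 => ℝ) 2).smulRight (ex m)

theorem PL_apply (j m : Fin n) (v : Fin 3 → ℝ) :
    PL j m v = v 0 • ex j + v 1 • ey j + v 2 • ex m := rfl

theorem PL_e0 (j m : Fin n) : PL j m (Pi.single 0 1) = ex j := by
  rw [PL_apply]; simp
theorem PL_e1 (j m : Fin n) : PL j m (Pi.single 1 1) = ey j := by
  rw [PL_apply]; simp
theorem PL_e2 (j m : Fin n) : PL j m (Pi.single 2 1) = ex m := by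
  rw [PL_apply]; simp

/-- evaluation of a two-form along the three-plane -/
theorem has_face {σ : EC n → F2 n} {z₀ : EC n} {j m : Fin n} {v : Fin 3 → ℝ}
    (h : DifferentiableAt ℝ σ (z₀ + PL j m v)) (a : Fin 2 → EC n) :
    HasFDerivAt (fun x => σ (z₀ + PL j m x) a)
      (((ContinuousAlternatingMap.apply ℝ (EC n) ℝ a).comp
        (fderiv ℝ σ (z₀ + PL j m v))).comp (PL j m)) v := by
  have h1 : HasFDerivAt (fun x => z₀ + PL j m x) (PL j m) v :=
    (PL j m).hasFDerivAt.const_add z₀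
  exact ((ContinuousAlternatingMap.apply ℝ (EC n) ℝ a).hasFDerivAt.comp _ h.hasFDerivAt).comp v h1

theorem norm_ex (j : Fin n) : ‖ex j‖ = 1 := by
  unfold ex
  rw [Pi.norm_single]; simp

theorem norm_ey (j : Fin n) : ‖ey j‖ = 1 := by
  unfold ey
  rw [Pi.norm_single]; simp

theorem ev_le (τ : F2 n) (u v : EC n) (hu : ‖u‖ = 1) (hv : ‖v‖ = 1) : |τ ![u, v]| ≤ ‖τ‖ := by
  have h := τ.le_opNorm ![u, v]
  rw [Fin.prod_univ_two] at h
  simpa [hu, hv] using h

theorem face_le {R M : ℝ} (hR : 0 ≤ R) (hM : 0 ≤ M) (c d : Fin 2 → ℝ) (hcd : ∀ i, d i - c i ≤ 2 * R)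
    (g : (Fin 2 → ℝ) → ℝ) (hg : ∀ x ∈ Icc c d, |g x| ≤ M) :
    |∫ x in Icc c d, g x| ≤ M * (2 * R) ^ 2 := by
  have hfin : volume (Icc c d) < ⊤ := isCompact_Icc.measure_lt_top
  have h1 := norm_setIntegral_le_of_norm_le_const hfin (f := g) (C := M)
    (fun x hx => hg x hx)
  rw [Real.norm_eq_abs] at h1
  refine h1.trans (mul_le_mul_of_nonneg_left ?_ hM)
  by_cases hle : c ≤ d
  · rw [measureReal_def, Real.volume_Icc_pi_toReal hle, Fin.prod_univ_two, sq]
    have h0 := sub_nonneg.2 (hle 0)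
    have h1 := sub_nonneg.2 (hle 1)
    exact mul_le_mul (hcd 0) (hcd 1) h1 (by linarith)
  · rw [Icc_eq_empty hle]
    simp; positivity

/-- Stokes' theorem on a box in the three-plane -/
theorem stokes3 {σ : EC n → F2 n} {z₀ : EC n} {j m : Fin n} (a b : Fin 3 → ℝ) (hab : a ≤ b)
    (hd : ∀ v ∈ Icc a b, ContDiffAt ℝ ∞ σ (z₀ + PL j m v))
    (hc : ∀ v ∈ Icc a b, extDeriv σ (z₀ + PL j m v) = 0)
    (f : Fin 3 → (Fin 3 → ℝ) → ℝ)
    (hf0 : f 0 = fun x => - σ (z₀ + PL j m x) ![ex m, ey j])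
    (hf1 : f 1 = fun x => σ (z₀ + PL j m x) ![ex m, ex j])
    (hf2 : f 2 = fun x => σ (z₀ + PL j m x) ![ex j, ey j]) :
    ∑ i : Fin 3, ((∫ x in Icc (a ∘ i.succAbove) (b ∘ i.succAbove), f i (i.insertNth (b i) x)) -
      ∫ x in Icc (a ∘ i.succAbove) (b ∘ i.succAbove), f i (i.insertNth (a i) x)) = 0 := by
  have hdiff : ∀ v ∈ Icc a b, DifferentiableAt ℝ σ (z₀ + PL j m v) := fun v hv =>
    (hd v hv).differentiableAt (by simp)
  set f' : Fin 3 → (Fin 3 → ℝ) → (Fin 3 → ℝ) →L[ℝ] ℝ := ![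
    fun v => - (((ContinuousAlternatingMap.apply ℝ (EC n) ℝ ![ex m, ey j]).comp
        (fderiv ℝ σ (z₀ + PL j m v))).comp (PL j m)),
    fun v => (((ContinuousAlternatingMap.apply ℝ (EC n) ℝ ![ex m, ex j]).comp
        (fderiv ℝ σ (z₀ + PL j m v))).comp (PL j m)),
    fun v => (((ContinuousAlternatingMap.apply ℝ (EC n) ℝ ![ex j, ey j]).comp
        (fderiv ℝ σ (z₀ + PL j m v))).comp (PL j m))] with hf'
  have hD : ∀ v ∈ Icc a b, ∀ i, HasFDerivAt (f i) (f' i v) v := by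
    intro v hv i
    fin_cases i
    · show HasFDerivAt (f 0) _ v
      rw [hf0]
      exact (has_face (hdiff v hv) _).neg
    · show HasFDerivAt (f 1) _ v
      rw [hf1]
      exact has_face (hdiff v hv) _
    · show HasFDerivAt (f 2) _ v
      rw [hf2]
      exact has_face (hdiff v hv) _
  have hdiv : ∀ v ∈ Icc a b, ∑ i, f' i v (Pi.single i 1) = 0 := by
    intro v hv
    have h0 := ext_eq (hdiff v hv) (ex m) (ex j) (ey j)
    rw [hc v hv] at h0
    rw [Fin.sum_univ_three]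
    show - (fderiv ℝ σ (z₀ + PL j m v) (PL j m (Pi.single 0 1)) ![ex m, ey j]) +
      fderiv ℝ σ (z₀ + PL j m v) (PL j m (Pi.single 1 1)) ![ex m, ex j] +
      fderiv ℝ σ (z₀ + PL j m v) (PL j m (Pi.single 2 1)) ![ex j, ey j] = 0
    rw [PL_e0, PL_e1, PL_e2]
    have h1 : (0 : EC n [⋀^Fin 3]→L[ℝ] ℝ) ![ex m, ex j, ey j] = 0 := rfl
    rw [h1] at h0
    linarith
  have hIoo : (Set.pi univ fun i => Ioo (a i) (b i)) ⊆ Icc a b := by
    intro v hv
    exact ⟨fun i => (hv i (mem_univ i)).1.le, fun i => (hv i (mem_univ i)).2.le⟩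
  have key := integral_divergence_of_hasFDerivAt_off_countable' a b hab f f' ∅ countable_empty
    (fun i v hv => ((hD v hv i).continuousAt).continuousWithinAt)
    (fun v hv i => hD v (hIoo hv.1) i)
    (by
      refine (integrableOn_zero).congr_fun (fun v hv => ?_) measurableSet_Icc
      exact (hdiv v hv).symm)
  rw [← key]
  exact setIntegral_eq_zero_of_forall_eq_zero hdiv

theorem mem_box {R a : ℝ} {v : Fin 3 → ℝ} (hv : v ∈ Icc (![-R, -R, a] : Fin 3 → ℝ) ![R, R, 0]) :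
    (-R ≤ v 0 ∧ v 0 ≤ R) ∧ (-R ≤ v 1 ∧ v 1 ≤ R) ∧ (a ≤ v 2 ∧ v 2 ≤ 0) := by
  refine ⟨⟨?_, ?_⟩, ⟨?_, ?_⟩, ?_, ?_⟩
  · simpa using hv.1 0
  · simpa using hv.2 0
  · simpa using hv.1 1
  · simpa using hv.2 1
  · simpa using hv.1 2
  · simpa using hv.2 2

theorem PL_j {j m : Fin n} (hjm : j ≠ m) (v : Fin 3 → ℝ) :
    (PL j m v) j = (v 0 : ℂ) + (v 1 : ℂ) * Complex.I := by
  rw [PL_apply]
  simp [ex, ey, Pi.single_eq_of_ne hjm]

theorem PL_m {j m : Fin n} (hjm : j ≠ m) (v : Fin 3 → ℝ) :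
    (PL j m v) m = (v 2 : ℂ) := by
  rw [PL_apply]
  simp [ex, ey, Pi.single_eq_of_ne hjm.symm]

theorem PL_o {j m k : Fin n} (hj : k ≠ j) (hm : k ≠ m) (v : Fin 3 → ℝ) :
    (PL j m v) k = 0 := by
  rw [PL_apply]
  simp [ex, ey, Pi.single_eq_of_ne hj, Pi.single_eq_of_ne hm]

theorem box_Qc {R : ℝ} {z₀ : EC n} {j m : Fin n} (hjm : j ≠ m) (h0 : z₀ j = 0)
    (hz : z₀ ∈ Qc n R) {v : Fin 3 → ℝ}
    (hv : v ∈ Icc (![-R, -R, -R - (z₀ m).re] : Fin 3 → ℝ) ![R, R, 0]) :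
    z₀ + PL j m v ∈ Qc n R := by
  obtain ⟨⟨a1, a2⟩, ⟨b1, b2⟩, c1, c2⟩ := mem_box hv
  intro k
  by_cases hk : k = j
  · subst hk
    rw [Pi.add_apply, h0, PL_j hjm]
    simp only [zero_add, Complex.add_re, Complex.add_im, Complex.ofReal_re, Complex.ofReal_im,
      Complex.mul_re, Complex.mul_im, Complex.I_re, Complex.I_im]
    constructor
    · rw [abs_le]; constructor <;> linarith
    · rw [abs_le]; constructor <;> linarith
  · by_cases hm : k = m
    · subst hm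
      rw [Pi.add_apply, PL_m hjm]
      have h1 := abs_le.1 (hz k).1
      simp only [Complex.add_re, Complex.add_im, Complex.ofReal_re, Complex.ofReal_im, add_zero]
      refine ⟨?_, (hz k).2⟩
      rw [abs_le]; constructor <;> linarith
    · rw [Pi.add_apply, PL_o hk hm, add_zero]
      exact hz k

/-- the estimate on the top face -/
theorem plane_bound {σ : EC n → F2 n} {K O : Set (EC n)} {j m : Fin n} (hjm : j ≠ m)
    {R M : ℝ} (hR : 0 < R) (hM0 : 0 ≤ M) (hg : Good O K σ) (hK : IsClosed K) (hRO : Qc n R ⊆ O)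
    (hM : ∀ z ∈ Qc n R \ Qo n R, ‖σ z‖ ≤ M) (z₀ : EC n) (h0 : z₀ j = 0) (hz : z₀ ∈ Qc n R)
    (hmiss : ∀ v : Fin 3 → ℝ, z₀ + PL j m v ∉ K) :
    ∫ x in Icc (fun _ : Fin 2 => -R) (fun _ => R),
      σ (z₀ + PL j m ![x 0, x 1, 0]) ![ex j, ey j] ≤ 5 * (M * (2 * R) ^ 2) := by
  have hb := abs_le.1 (hz m).1
  set a : Fin 3 → ℝ := ![-R, -R, -R - (z₀ m).re] with ha
  set b : Fin 3 → ℝ := ![R, R, 0] with hb'
  have hab : a ≤ b := by
    intro i
    fin_cases i
    · simp [ha, hb']; linarith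
    · simp [ha, hb']; linarith
    · simp [ha, hb']; linarith
  have hin : ∀ v ∈ Icc a b, z₀ + PL j m v ∈ O \ K := fun v hv =>
    ⟨hRO (box_Qc hjm h0 hz hv), hmiss v⟩
  have hopen : IsOpen (O \ K) := hg.isOpen.sdiff hK
  set f : Fin 3 → (Fin 3 → ℝ) → ℝ := ![fun x => - σ (z₀ + PL j m x) ![ex m, ey j],
    fun x => σ (z₀ + PL j m x) ![ex m, ex j], fun x => σ (z₀ + PL j m x) ![ex j, ey j]] with hf
  have key := stokes3 (σ := σ) (z₀ := z₀) (j := j) (m := m) a b hab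
    (fun v hv => hg.smooth.contDiffAt (hopen.mem_nhds (hin v hv)))
    (fun v hv => hg.closed _ (hin v hv)) f rfl rfl rfl
  rw [Fin.sum_univ_three] at key
  have hfM : ∀ i, ∀ v : Fin 3 → ℝ, z₀ + PL j m v ∈ Qc n R \ Qo n R → |f i v| ≤ M := by
    intro i v hv
    refine le_trans ?_ (hM _ hv)
    fin_cases i
    · show |- σ (z₀ + PL j m v) ![ex m, ey j]| ≤ _
      rw [abs_neg]
      exact ev_le _ _ _ (norm_ex _) (norm_ey _)
    · exact ev_le _ _ _ (norm_ex _) (norm_ex _)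
    · exact ev_le _ _ _ (norm_ex _) (norm_ey _)
  have hins : ∀ (i : Fin 3) (t : ℝ), a i ≤ t → t ≤ b i → ∀ x ∈ Icc (a ∘ i.succAbove) (b ∘ i.succAbove),
      i.insertNth t x ∈ Icc a b := by
    intro i t h1 h2 x hx
    constructor
    · intro k
      rcases Fin.eq_self_or_eq_succAbove i k with hk | ⟨l, rfl⟩
      · rw [hk]; simpa using h1
      · simpa using hx.1 l
    · intro k
      rcases Fin.eq_self_or_eq_succAbove i k with hk | ⟨l, rfl⟩
      · rw [hk]; simpa using h2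
      · simpa using hx.2 l
  have hside : ∀ i : Fin 3, ∀ l : Fin 2, (b ∘ i.succAbove) l - (a ∘ i.succAbove) l ≤ 2 * R := by
    intro i l
    have hall : ∀ k : Fin 3, b k - a k ≤ 2 * R := by
      intro k
      fin_cases k
      · simp [ha, hb']; linarith
      · simp [ha, hb']; linarith
      · simp [ha, hb']; linarith
    exact hall _
  have hbd0 : ∀ t : ℝ, t = -R ∨ t = R → ∀ v ∈ Icc a b, v 0 = t →
      z₀ + PL j m v ∈ Qc n R \ Qo n R := by
    intro t ht v hv hvt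
    refine ⟨box_Qc hjm h0 hz hv, fun hq => ?_⟩
    have h1 := (hq j).1
    rw [Pi.add_apply, h0, PL_j hjm] at h1
    simp [hvt] at h1
    rcases ht with rfl | rfl
    · rw [abs_neg, abs_of_pos hR] at h1; exact lt_irrefl _ h1
    · rw [abs_of_pos hR] at h1; exact lt_irrefl _ h1
  have hbd1 : ∀ t : ℝ, t = -R ∨ t = R → ∀ v ∈ Icc a b, v 1 = t →
      z₀ + PL j m v ∈ Qc n R \ Qo n R := by
    intro t ht v hv hvt
    refine ⟨box_Qc hjm h0 hz hv, fun hq => ?_⟩
    have h1 := (hq j).2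
    rw [Pi.add_apply, h0, PL_j hjm] at h1
    simp [hvt] at h1
    rcases ht with rfl | rfl
    · rw [abs_neg, abs_of_pos hR] at h1; exact lt_irrefl _ h1
    · rw [abs_of_pos hR] at h1; exact lt_irrefl _ h1
  have hbd2 : ∀ v ∈ Icc a b, v 2 = -R - (z₀ m).re → z₀ + PL j m v ∈ Qc n R \ Qo n R := by
    intro v hv hvt
    refine ⟨box_Qc hjm h0 hz hv, fun hq => ?_⟩
    have h1 := (hq m).1
    rw [Pi.add_apply, PL_m hjm] at h1
    simp [hvt] at h1
    rw [abs_of_pos hR] at h1; exact lt_irrefl _ h1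
  have e0a := face_le hR.le hM0 _ _ (hside 0) (fun x => f 0 ((0 : Fin 3).insertNth (a 0) x))
    (fun x hx => hfM 0 _ (hbd0 (a 0) (Or.inl (by simp [ha])) _
      (hins 0 _ le_rfl (hab 0) x hx) (by simp)))
  have e0b := face_le hR.le hM0 _ _ (hside 0) (fun x => f 0 ((0 : Fin 3).insertNth (b 0) x))
    (fun x hx => hfM 0 _ (hbd0 (b 0) (Or.inr (by simp [hb'])) _
      (hins 0 _ (hab 0) le_rfl x hx) (by simp)))
  have e1a := face_le hR.le hM0 _ _ (hside 1) (fun x => f 1 ((1 : Fin 3).insertNth (a 1) x))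
    (fun x hx => hfM 1 _ (hbd1 (a 1) (Or.inl (by simp [ha])) _
      (hins 1 _ le_rfl (hab 1) x hx) (by simp)))
  have e1b := face_le hR.le hM0 _ _ (hside 1) (fun x => f 1 ((1 : Fin 3).insertNth (b 1) x))
    (fun x hx => hfM 1 _ (hbd1 (b 1) (Or.inr (by simp [hb'])) _
      (hins 1 _ (hab 1) le_rfl x hx) (by simp)))
  have e2a := face_le hR.le hM0 _ _ (hside 2) (fun x => f 2 ((2 : Fin 3).insertNth (a 2) x))
    (fun x hx => hfM 2 _ (hbd2 _
      (hins 2 _ le_rfl (hab 2) x hx) (by simp [ha])))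
  have hgoal : ∫ x in Icc (fun _ : Fin 2 => -R) (fun _ => R),
      σ (z₀ + PL j m ![x 0, x 1, 0]) ![ex j, ey j] =
      ∫ x in Icc (a ∘ (2 : Fin 3).succAbove) (b ∘ (2 : Fin 3).succAbove),
        f 2 ((2 : Fin 3).insertNth (b 2) x) := by
    have g1 : a ∘ (2 : Fin 3).succAbove = fun _ : Fin 2 => -R := by
      funext l; fin_cases l <;> rfl
    have g2 : b ∘ (2 : Fin 3).succAbove = fun _ : Fin 2 => R := by
      funext l; fin_cases l <;> rfl
    rw [g1, g2]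
    refine integral_congr_ae (Eventually.of_forall fun x => ?_)
    have g3 : (2 : Fin 3).insertNth (b 2) x = (![x 0, x 1, 0] : Fin 3 → ℝ) := by
      funext l; fin_cases l <;> rfl
    show _ = f 2 ((2 : Fin 3).insertNth (b 2) x)
    rw [g3]
    rfl
  rw [hgoal]
  have := abs_le.1 e0a
  have := abs_le.1 e0b
  have := abs_le.1 e1a
  have := abs_le.1 e1b
  have := abs_le.1 e2a
  linarith

end Pool.Agent.L7h47.RS
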