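import Pool.Agent.L7h17.RS.Calc
import Pool.Agent.L7h47.RS.Mass

/-!
# Project RS: integration by parts off the singular set (helper47)
-/

set_option autoImplicit false

open Set Filter Topology MeasureTheory
open scoped ContDiff ComplexConjugate ENNReal

noncomputable section

namespace Pool.Agent.L7h47.RS

open Pool.Agent.L7h17.RS

variable {n : ℕ}

theorem prod_int {S : Set (EC n)} (hS : IsOpen S) {g ψ : EC n → ℂ} (hg : ContinuousOn g S)
    (hψ : Continuous ψ) (hc : HasCompactSupport ψ) (hs : tsupport ψ ⊆ S) :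
    Integrable (fun x => g x * ψ x) volume := by
  have h1 : Continuous (fun x => g x * ψ x) := by
    refine continuous_of_tsupport fun x hx => ?_
    have hx1 : x ∈ tsupport ψ := closure_mono (fun y hy => by
      intro h0
      exact hy (by simp [h0])) hx
    exact (hg.continuousAt (hS.mem_nhds (hs hx1))).mul hψ.continuousAt
  exact h1.integrable_of_hasCompactSupport hc.mul_left

/-- integration by parts in a real direction -/
theorem ibp {S : Set (EC n)} (hS : IsOpen S) {g ψ : EC n → ℂ} (hg : ContDiffOn ℝ ∞ g S)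
    (hψ : ContDiff ℝ ∞ ψ) (hc : HasCompactSupport ψ) (hs : tsupport ψ ⊆ S) (v : EC n) :
    ∫ x, g x * fderiv ℝ ψ x v = - ∫ x, fderiv ℝ g x v * ψ x := by
  have hd : Differentiable ℝ ψ := hψ.differentiable (by simp)
  have hgd : ContinuousOn (fun x => fderiv ℝ g x v) S := fun x hx =>
    (fd_smooth (hg.contDiffAt (hS.mem_nhds hx)) v).continuousAt.continuousWithinAt
  have hpd : Continuous (fun x => fderiv ℝ ψ x v) :=
    (hψ.continuous_fderiv (by simp)).clm_apply continuous_const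
  have hcs : HasCompactSupport (fun x => fderiv ℝ ψ x v) := hc.fderiv_apply ℝ v
  have hts : tsupport (fun x => fderiv ℝ ψ x v) ⊆ S := (tsupport_fderiv_apply_subset ℝ v).trans hs
  refine integral_mul_fderiv_eq_neg_fderiv_mul_of_integrable ?_ ?_ ?_ ?_ ?_
  · exact prod_int hS hgd hψ.continuous hc hs
  · exact prod_int hS hg.continuousOn hpd hcs hts
  · exact prod_int hS hg.continuousOn hψ.continuous hc hs
  · intro x hx
    exact (hg.contDiffAt (hS.mem_nhds (hs hx))).differentiableAt (by simp)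
  · intro x _
    exact hd x

theorem int_fd {S : Set (EC n)} (hS : IsOpen S) {g ψ : EC n → ℂ} (hg : ContDiffOn ℝ ∞ g S)
    (hψ : ContDiff ℝ ∞ ψ) (hc : HasCompactSupport ψ) (hs : tsupport ψ ⊆ S) (v : EC n) :
    Integrable (fun x => fderiv ℝ g x v * ψ x) volume ∧
      Integrable (fun x => g x * fderiv ℝ ψ x v) volume := by
  have hgd : ContinuousOn (fun x => fderiv ℝ g x v) S := fun x hx =>
    (fd_smooth (hg.contDiffAt (hS.mem_nhds hx)) v).continuousAt.continuousWithinAt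
  have hpd : Continuous (fun x => fderiv ℝ ψ x v) :=
    (hψ.continuous_fderiv (by simp)).clm_apply continuous_const
  have hcs : HasCompactSupport (fun x => fderiv ℝ ψ x v) := hc.fderiv_apply ℝ v
  have hts : tsupport (fun x => fderiv ℝ ψ x v) ⊆ S := (tsupport_fderiv_apply_subset ℝ v).trans hs
  exact ⟨prod_int hS hgd hψ.continuous hc hs, prod_int hS hg.continuousOn hpd hcs hts⟩

theorem ibp_two {S : Set (EC n)} (hS : IsOpen S) {g ψ : EC n → ℂ} (hg : ContDiffOn ℝ ∞ g S)
    (hψ : ContDiff ℝ ∞ ψ) (hc : HasCompactSupport ψ) (hs : tsupport ψ ⊆ S) (u v : EC n) (c : ℂ) :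
    ∫ x, g x * ((fderiv ℝ ψ x u + c * fderiv ℝ ψ x v) / 2) =
      - ∫ x, (fderiv ℝ g x u + c * fderiv ℝ g x v) / 2 * ψ x := by
  have h1 := int_fd hS hg hψ hc hs u
  have h2 := int_fd hS hg hψ hc hs v
  have e1 : (fun x => g x * ((fderiv ℝ ψ x u + c * fderiv ℝ ψ x v) / 2)) =
      fun x => (1 / 2 : ℂ) * (g x * fderiv ℝ ψ x u) + (c / 2) * (g x * fderiv ℝ ψ x v) := by
    funext x; ring
  have e2 : (fun x => (fderiv ℝ g x u + c * fderiv ℝ g x v) / 2 * ψ x) =
      fun x => (1 / 2 : ℂ) * (fderiv ℝ g x u * ψ x) + (c / 2) * (fderiv ℝ g x v * ψ x) := by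
    funext x; ring
  rw [e1, e2, integral_add (h1.2.const_mul _) (h2.2.const_mul _),
    integral_add (h1.1.const_mul _) (h2.1.const_mul _), integral_const_mul, integral_const_mul,
    integral_const_mul, integral_const_mul, ibp hS hg hψ hc hs u, ibp hS hg hψ hc hs v]
  ring

theorem ibp_dz {S : Set (EC n)} (hS : IsOpen S) {g ψ : EC n → ℂ} (hg : ContDiffOn ℝ ∞ g S)
    (hψ : ContDiff ℝ ∞ ψ) (hc : HasCompactSupport ψ) (hs : tsupport ψ ⊆ S) (j : Fin n) :
    ∫ x, g x * dz j ψ x = - ∫ x, dz j g x * ψ x := by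
  simp only [dz_eq]
  exact ibp_two hS hg hψ hc hs _ _ _

theorem ibp_db {S : Set (EC n)} (hS : IsOpen S) {g ψ : EC n → ℂ} (hg : ContDiffOn ℝ ∞ g S)
    (hψ : ContDiff ℝ ∞ ψ) (hc : HasCompactSupport ψ) (hs : tsupport ψ ⊆ S) (j : Fin n) :
    ∫ x, g x * db j ψ x = - ∫ x, db j g x * ψ x := by
  simp only [db_eq]
  exact ibp_two hS hg hψ hc hs _ _ _

theorem two_supp {ψ : EC n → ℂ} (hψ : ContDiff ℝ ∞ ψ) (hc : HasCompactSupport ψ) (u v : EC n)
    (c : ℂ) :
    ContDiff ℝ ∞ (fun x => (fderiv ℝ ψ x u + c * fderiv ℝ ψ x v) / 2) ∧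
    HasCompactSupport (fun x => (fderiv ℝ ψ x u + c * fderiv ℝ ψ x v) / 2) ∧
    tsupport (fun x => (fderiv ℝ ψ x u + c * fderiv ℝ ψ x v) / 2) ⊆ tsupport ψ := by
  have h1 : tsupport (fun x => (fderiv ℝ ψ x u + c * fderiv ℝ ψ x v) / 2) ⊆ tsupport ψ := by
    refine closure_minimal (fun x hx => ?_) (isClosed_tsupport ψ)
    by_contra hx'
    have e0 : ψ =ᶠ[𝓝 x] fun _ => 0 := notMem_tsupport_iff_eventuallyEq.1 hx'
    have e1 : fderiv ℝ ψ x = 0 := by
      rw [e0.fderiv_eq]
      simp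
    exact hx (by simp [e1])
  refine ⟨?_, ?_, h1⟩
  · refine contDiff_iff_contDiffAt.2 fun x => ?_
    exact ((fd_smooth hψ.contDiffAt u).add (contDiffAt_const.mul (fd_smooth hψ.contDiffAt v))).div_const 2
  · exact HasCompactSupport.of_support_subset_isCompact hc.isCompact
      ((subset_tsupport _).trans h1)

theorem dz_supp {ψ : EC n → ℂ} (hψ : ContDiff ℝ ∞ ψ) (hc : HasCompactSupport ψ) (j : Fin n) :
    ContDiff ℝ ∞ (dz j ψ) ∧ HasCompactSupport (dz j ψ) ∧ tsupport (dz j ψ) ⊆ tsupport ψ := by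
  rw [dz_eq]
  exact two_supp hψ hc _ _ _

theorem db_supp {ψ : EC n → ℂ} (hψ : ContDiff ℝ ∞ ψ) (hc : HasCompactSupport ψ) (j : Fin n) :
    ContDiff ℝ ∞ (db j ψ) ∧ HasCompactSupport (db j ψ) ∧ tsupport (db j ψ) ⊆ tsupport ψ := by
  rw [db_eq]
  exact two_supp hψ hc _ _ _

/-- the identity for test functions with support off `K` -/
theorem half (hcomp : S_COMP) {O K : Set (EC n)} {σ : EC n → F2 n} (hg : Good O K σ)
    (hK : IsClosed K) {φ : EC n → ℂ} (hφ : ContDiff ℝ ∞ φ) (hc : HasCompactSupport φ)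
    (hs : tsupport φ ⊆ O \ K) (l j k m : Fin n) :
    (∫ z, HH σ j k z * db m (dz l φ) z) - ∫ z, HH σ l k z * db m (dz j φ) z =
      - ∫ z, BB σ l j z * db k (db m φ) z := by
  have hS : IsOpen (O \ K) := hg.isOpen.sdiff hK
  have hH : ∀ a b, ContDiffOn ℝ ∞ (HH σ a b) (O \ K) := fun a b => HH_smooth hg.smooth a b
  have hB : ∀ a b, ContDiffOn ℝ ∞ (BB σ a b) (O \ K) := fun a b => BB_smooth hg.smooth a b
  obtain ⟨m1, m2, m3⟩ := db_supp hφ hc m
  have m4 : tsupport (db m φ) ⊆ O \ K := m3.trans hs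
  have e1 : ∀ a b, ∫ z, HH σ a b z * db m (dz j φ) z = ∫ z, HH σ a b z * dz j (db m φ) z := by
    intro a b
    refine integral_congr_ae (Eventually.of_forall fun z => ?_)
    show HH σ a b z * db m (dz j φ) z = HH σ a b z * dz j (db m φ) z
    rw [db_dz hφ.contDiffAt]
  have e2 : ∀ a b, ∫ z, HH σ a b z * db m (dz l φ) z = ∫ z, HH σ a b z * dz l (db m φ) z := by
    intro a b
    refine integral_congr_ae (Eventually.of_forall fun z => ?_)
    show HH σ a b z * db m (dz l φ) z = HH σ a b z * dz l (db m φ) z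
    rw [db_dz hφ.contDiffAt]
  rw [e1, e2, ibp_dz hS (hH j k) m1 m2 m4 l, ibp_dz hS (hH l k) m1 m2 m4 j,
    ibp_db hS (hB l j) m1 m2 m4 k, neg_neg]
  have i1 : Integrable (fun z => dz l (HH σ j k) z * db m φ z) volume :=
    prod_int hS (dz_smoothOn hS (hH j k) l).continuousOn m1.continuous m2 m4
  have i2 : Integrable (fun z => dz j (HH σ l k) z * db m φ z) volume :=
    prod_int hS (dz_smoothOn hS (hH l k) j).continuousOn m1.continuous m2 m4
  rw [sub_neg_eq_add, neg_add_eq_sub, ← integral_sub i2 i1]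
  refine integral_congr_ae (Eventually.of_forall fun z => ?_)
  show dz j (HH σ l k) z * db m φ z - dz l (HH σ j k) z * db m φ z = db k (BB σ l j) z * db m φ z
  by_cases hz : z ∈ O \ K
  · have h0 := ((hcomp n σ z ((hg.smooth.contDiffAt (hS.mem_nhds hz)).differentiableAt
      (by simp))).1 (hg.closed z hz)).1 l j k
    linear_combination (-db m φ z) * h0
  · have h0 : db m φ z = 0 := image_eq_zero_of_notMem_tsupport (fun h => hz (m4 h))
    rw [h0]; ring

theorem full (hcomp : S_COMP) {O K : Set (EC n)} {σ : EC n → F2 n} (hg : Good O K σ)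
    (hK : IsClosed K) {φ : EC n → ℂ} (hφ : ContDiff ℝ ∞ φ) (hc : HasCompactSupport φ)
    (hs : tsupport φ ⊆ O \ K) (l j k m : Fin n) :
    (∫ z, HH σ j k z * db m (dz l φ) z) - (∫ z, HH σ l k z * db m (dz j φ) z) =
    (∫ z, HH σ j m z * db k (dz l φ) z) - ∫ z, HH σ l m z * db k (dz j φ) z := by
  rw [half hcomp hg hK hφ hc hs, half hcomp hg hK hφ hc hs]
  congr 1
  refine integral_congr_ae (Eventually.of_forall fun z => ?_)
  show BB σ l j z * db k (db m φ) z = BB σ l j z * db m (db k φ) z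
  rw [db_db hφ.contDiffAt]

end Pool.Agent.L7h47.RS
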